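import Pool.Agent.Y642.ND.Stm

set_option autoImplicit false

/-! Project ND: the product over all embeddings. -/

open Finset Polynomial Module

universe u

namespace Pool.Agent.Y412.ND

theorem prod_gen {K S F : Type*} [Field K] [CommRing S] [Algebra K S] [Field F] [Algebra K F]
    (pb : PowerBasis K S) (hE : ((minpoly K pb.gen).map (algebraMap K F)).Splits)
    (hfx : IsSeparable K pb.gen) :
    (minpoly K pb.gen).map (algebraMap K F) =
      (@Finset.univ _ (PowerBasis.AlgHom.fintype pb)).prod fun σ : S →ₐ[K] F => (X - C (σ pb.gen)) := by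
  classical
  have hmon : ((minpoly K pb.gen).map (algebraMap K F)).Monic :=
    (minpoly.monic pb.isIntegral_gen).map _
  conv_lhs => rw [hE.eq_prod_roots_of_monic hmon]
  rw [@Fintype.prod_equiv (S →ₐ[K] F) _ _ (PowerBasis.AlgHom.fintype pb) _ _ pb.liftEquiv'
    (fun σ => X - C (σ pb.gen)) (fun x => X - C (x : F)) ?_]
  · rw [Finset.prod_mem_multiset _ _ (fun x : F => X - C x) (fun x => rfl), Finset.prod_eq_multiset_prod,
      Multiset.toFinset_val, Multiset.dedup_eq_self.mpr (nodup_roots (.map hfx))]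
  · intro σ; simp only [PowerBasis.liftEquiv'_apply_coe]

theorem prod_pow {K L F E : Type*} [Field K] [Field L] [Field F] [Field E] [Algebra K L] [Algebra K F]
    [Algebra K E] [Algebra L F] [IsScalarTower K L F] [IsAlgClosed E]
    [Algebra.IsSeparable K F] [FiniteDimensional K F] (pb : PowerBasis K L) :
    ∏ σ : F →ₐ[K] E, (X - C (σ (algebraMap L F pb.gen))) =
      ((@Finset.univ _ (PowerBasis.AlgHom.fintype pb)).prod
        fun σ : L →ₐ[K] E => (X - C (σ pb.gen))) ^ finrank L F := by
  have : FiniteDimensional L F := FiniteDimensional.right K L F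
  have : Algebra.IsSeparable L F := Algebra.isSeparable_tower_top_of_isSeparable K L F
  let : Fintype (L →ₐ[K] E) := PowerBasis.AlgHom.fintype pb
  rw [Fintype.prod_equiv algHomEquivSigma (fun σ : F →ₐ[K] E => _) fun σ => (X - C (σ.1 pb.gen)),
    ← Finset.univ_sigma_univ, Finset.prod_sigma, ← Finset.prod_pow]
  · refine Finset.prod_congr rfl fun σ _ => ?_
    let : Algebra L E := σ.toRingHom.toAlgebra
    simp_rw [Finset.prod_const]
    congr
    exact AlgHom.card L F E
  · intro σ
    simp only [algHomEquivSigma, Equiv.coe_fn_mk, AlgHom.domRestrict, AlgHom.comp_apply,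
      IsScalarTower.coe_toAlgHom']

theorem t : Pool.Agent.Y642.ND.S_EMB.{u} := by
  intro F _ _ Ω _ _ _ x f hf hx m hm
  have hdeg : f.natDegree ≠ 0 := by
    intro h0
    have h1 : f = C (f.coeff 0) := eq_C_of_natDegree_eq_zero h0
    rw [h1, aeval_C] at hx
    have h2 : f.coeff 0 = 0 := by
      have : ((f.coeff 0 : ℤ) : F) = 0 := by simpa using hx
      exact_mod_cast this
    rw [h2, C_0] at h1
    exact hf.ne_zero h1
  have hprim : f.IsPrimitive := hf.isPrimitive hdeg
  have hirr : Irreducible (f.map (Int.castRingHom ℚ)) :=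
    (IsPrimitive.Int.irreducible_iff_irreducible_map_cast hprim).1 hf
  have hxa : aeval x (f.map (Int.castRingHom ℚ)) = 0 := by
    rw [← hx]
    exact aeval_map_algebraMap ℚ x f
  have hmin := minpoly.eq_of_irreducible hirr hxa
  have hlc : (f.map (Int.castRingHom ℚ)).leadingCoeff = (f.leadingCoeff : ℚ) := by
    rw [leadingCoeff_map_of_injective (RingHom.injective_int _)]
    rfl
  have hlc0 : (f.leadingCoeff : ℚ) ≠ 0 := by
    exact_mod_cast leadingCoeff_ne_zero.2 hf.ne_zero
  have hfm : f.map (Int.castRingHom ℚ) = C (f.leadingCoeff : ℚ) * minpoly ℚ x := by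
    rw [← hmin, hlc, mul_comm (f.map _), ← mul_assoc, ← C_mul, mul_inv_cancel₀ hlc0, C_1, one_mul]
  have hint : IsIntegral ℚ x := Algebra.IsIntegral.isIntegral x
  let pb := IntermediateField.adjoin.powerBasis hint
  have hpg := IntermediateField.minpoly_gen ℚ x
  rw [← IntermediateField.adjoin.powerBasis_gen hint] at hpg
  have hfin : finrank ℚ (IntermediateField.adjoin ℚ {x}) = f.natDegree := by
    rw [IntermediateField.adjoin.finrank hint, ← hmin]
    rw [natDegree_mul_C (by rw [hlc]; exact inv_ne_zero hlc0)]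
    exact natDegree_map_eq_of_injective (RingHom.injective_int _) f
  have hm' : m = finrank (IntermediateField.adjoin ℚ {x}) F := by
    have h1 := Module.finrank_mul_finrank ℚ (IntermediateField.adjoin ℚ {x}) F
    rw [hfin] at h1
    have h2 : f.natDegree * m = f.natDegree * finrank (IntermediateField.adjoin ℚ {x}) F := by
      rw [h1, ← hm, mul_comm]
    exact Nat.eq_of_mul_eq_mul_left (Nat.pos_of_ne_zero hdeg) h2
  have h1 := prod_pow (F := F) (E := Ω) pb
  rw [← prod_gen pb (IsAlgClosed.splits _) (Algebra.IsSeparable.isSeparable ℚ _), hpg, ← hm'] at h1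
  have h2 : algebraMap (IntermediateField.adjoin ℚ {x}) F pb.gen = x := by
    rw [IntermediateField.adjoin.powerBasis_gen]
    rfl
  rw [h2] at h1
  have h3 : ∏ σ : F →+* Ω, (X - C (σ x)) = ∏ σ : F →ₐ[ℚ] Ω, (X - C (σ x)) :=
    Fintype.prod_equiv (RingHom.equivRatAlgHom F Ω) _ _ (fun σ => rfl)
  rw [h3, h1]
  have h4 : f.map (Int.castRingHom Ω) = C (f.leadingCoeff : Ω) * (minpoly ℚ x).map (algebraMap ℚ Ω) := by
    have h5 : f.map (Int.castRingHom Ω) = (f.map (Int.castRingHom ℚ)).map (algebraMap ℚ Ω) := by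
      rw [Polynomial.map_map]
      congr 1
      exact RingHom.ext_int _ _
    rw [h5, hfm, Polynomial.map_mul, map_C]
    congr 2
    simp
  rw [h4, mul_pow, C_pow]

end Pool.Agent.Y412.ND
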